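import Mathlib

set_option autoImplicit false

open Matrix Complex
open scoped Kronecker

namespace Pool.Agent.Results.MP_fa5fea_an.Counterexample

def IrrClifford {d k : ℕ} (γ : Fin d → Matrix (Fin k) (Fin k) ℂ) : Prop :=
  0 < k ∧ (∀ j, (γ j).IsHermitian) ∧
    (∀ j l, γ j * γ l + γ l * γ j = if j = l then (2 : ℂ) • 1 else 0) ∧
    ∀ W : Submodule ℂ (Fin k → ℂ), (∀ j, ∀ v ∈ W, γ j *ᵥ v ∈ W) → W = ⊥ ∨ W = ⊤

noncomputable def loc {n d k : ℕ} (A : Fin d → Matrix (Fin n) (Fin n) ℂ)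
    (γ : Fin d → Matrix (Fin k) (Fin k) ℂ) (x : Fin d → ℝ) :
    Matrix (Fin n × Fin k) (Fin n × Fin k) ℂ :=
  ∑ j, (A j - (x j : ℂ) • (1 : Matrix (Fin n) (Fin n) ℂ)) ⊗ₖ γ j

def spec {n d k : ℕ} (A : Fin d → Matrix (Fin n) (Fin n) ℂ)
    (γ : Fin d → Matrix (Fin k) (Fin k) ℂ) : Set (Fin d → ℝ) :=
  {x | ¬ IsUnit (loc A γ x)}

def pauli : Fin 3 → Matrix (Fin 2) (Fin 2) ℂ :=
  ![!![0, 1; 1, 0], !![0, -I; I, 0], !![1, 0; 0, -1]]

def A0 : Fin 3 → Matrix (Fin 3) (Fin 3) ℂ :=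
  ![!![0, 0, 0; 0, 0, 1; 0, 1, 0], !![0, 0, 1; 0, 0, 0; 1, 0, 0], !![0, 1, 0; 1, 0, 0; 0, 0, 0]]

theorem pauli_irr : IrrClifford pauli := by
  refine ⟨two_pos, fun j => ?_, fun j l => ?_, fun W hW => ?_⟩
  · fin_cases j <;> ext a b <;> fin_cases a <;> fin_cases b <;> simp [pauli]
  · fin_cases j <;> fin_cases l <;> ext a b <;> fin_cases a <;> fin_cases b <;>
      simp [pauli] <;> norm_num
  · by_cases h : W = ⊥
    · exact Or.inl h
    right
    obtain ⟨v, hv, hv0⟩ := Submodule.exists_mem_ne_zero_of_ne_bot h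
    have sw : ∀ u ∈ W, ![u 1, u 0] ∈ W := fun u hu => by
      convert hW 0 u hu using 1
      ext a; fin_cases a <;> simp [pauli, mulVec, dotProduct, Fin.sum_univ_two]
    have pr : ∀ u ∈ W, ![u 0, 0] ∈ W := fun u hu => by
      convert W.smul_mem (1 / 2) (W.add_mem hu (hW 2 u hu)) using 1
      ext a; fin_cases a <;>
        simp [pauli, mulVec, dotProduct, Fin.sum_univ_two, Matrix.vecHead, Matrix.vecTail] <;> ring
    have e0 : ![(1 : ℂ), 0] ∈ W := by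
      by_cases h0 : v 0 = 0
      · have h1 : v 1 ≠ 0 := fun h1 => hv0 (by ext a; fin_cases a <;> simp [h0, h1])
        convert W.smul_mem (v 1)⁻¹ (pr _ (sw v hv)) using 1
        ext a; fin_cases a <;> simp [h1]
      · convert W.smul_mem (v 0)⁻¹ (pr v hv) using 1
        ext a; fin_cases a <;> simp [h0]
    rw [eq_top_iff]
    intro u _
    convert W.add_mem (W.smul_mem (u 0) e0) (W.smul_mem (u 1) (sw _ e0)) using 1
    ext a; fin_cases a <;> simp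

theorem det6 (p q z : ℂ) : det !![-z, -q, 1, 0, 0, -I; -p, z, 0, -1, I, 0; 1, 0, -z, -q, 0, 1;
    0, -1, -p, z, 1, 0; 0, -I, 0, 1, -z, -q; I, 0, 1, 0, -p, z] =
    -((p * q + z ^ 2) * (p * q + z ^ 2 + 1) ^ 2 + 4 * I * (p ^ 2 - q ^ 2) * z) := by
  simp [det_succ_row_zero, Fin.sum_univ_succ, Fin.succAbove]
  ring_nf
  simp only [I_sq]
  ring

theorem det_loc (x : Fin 3 → ℝ) : det (loc A0 pauli x) =
    -(((x 0 ^ 2 + x 1 ^ 2 + x 2 ^ 2) * (x 0 ^ 2 + x 1 ^ 2 + x 2 ^ 2 + 1) ^ 2 -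
      16 * x 0 * x 1 * x 2 : ℝ) : ℂ) := by
  have h := det6 (x 0 + x 1 * I) (x 0 - x 1 * I) (x 2)
  have e : (x 0 + x 1 * I) * (x 0 - x 1 * I) = (x 0 : ℂ) ^ 2 + (x 1 : ℂ) ^ 2 := by
    linear_combination (-(x 1 : ℂ) ^ 2) * I_sq
  rw [e] at h
  rw [← det_reindex_self (finProdFinEquiv : Fin 3 × Fin 2 ≃ Fin 6)]
  refine Eq.trans (congrArg det ?_) (h.trans ?_)
  · ext a b
    fin_cases a <;> fin_cases b <;>
      simp [loc, A0, pauli, Fin.sum_univ_three, finProdFinEquiv, Fin.divNat, Fin.modNat,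
        Matrix.sum_apply, one_apply] <;> ring
  · push_cast
    linear_combination (-16 * (x 0 : ℂ) * x 1 * x 2) * I_sq

theorem mem_spec (x : Fin 3 → ℝ) : x ∈ spec A0 pauli ↔
    (x 0 ^ 2 + x 1 ^ 2 + x 2 ^ 2) * (x 0 ^ 2 + x 1 ^ 2 + x 2 ^ 2 + 1) ^ 2 =
      16 * x 0 * x 1 * x 2 := by
  rw [spec, Set.mem_setOf_eq, isUnit_iff_isUnit_det, isUnit_iff_ne_zero, not_not, det_loc,
    neg_eq_zero, ofReal_eq_zero, sub_eq_zero]

theorem sq_cases {a b c : ℝ} (ha : 0 ≤ a) (hb : 0 ≤ b) (hc : 0 ≤ c)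
    (h : ((a + b + c) * (a + b + c + 1) ^ 2) ^ 2 = 256 * a * b * c) :
    (a = 0 ∧ b = 0 ∧ c = 0) ∨ (a = 1 / 9 ∧ b = 1 / 9 ∧ c = 1 / 9) := by
  have e1 : 2 * ((a + b + c) ^ 3 - 27 * a * b * c) = (a + b + 7 * c) * (a - b) ^ 2 +
      (b + c + 7 * a) * (b - c) ^ 2 + (c + a + 7 * b) * (c - a) ^ 2 := by ring
  have p1 : 0 ≤ (a + b + 7 * c) * (a - b) ^ 2 := by positivity
  have p2 : 0 ≤ (b + c + 7 * a) * (b - c) ^ 2 := by positivity
  have p3 : 0 ≤ (c + a + 7 * b) * (c - a) ^ 2 := by positivity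
  rcases (show 0 ≤ a + b + c by positivity).eq_or_lt with hs | hs
  · left; refine ⟨?_, ?_, ?_⟩ <;> linarith
  right
  set s := a + b + c with hs'
  have e2 : s ^ 2 * ((3 * s - 1) ^ 2 * (3 * s ^ 2 + 14 * s + 27)) +
      256 * (s ^ 3 - 27 * a * b * c) = 0 := by linear_combination 27 * h
  have p4 : 0 ≤ s ^ 2 * ((3 * s - 1) ^ 2 * (3 * s ^ 2 + 14 * s + 27)) := by positivity
  have z1 : s ^ 2 * ((3 * s - 1) ^ 2 * (3 * s ^ 2 + 14 * s + 27)) = 0 := by linarith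
  have z2 : 3 * s - 1 = 0 := by
    rcases mul_eq_zero.1 z1 with k | k
    · exact absurd k (by positivity)
    · exact eq_zero_of_pow_eq_zero ((mul_eq_zero.1 k).resolve_right (by positivity))
  have z3 : a - b = 0 := eq_zero_of_pow_eq_zero
    ((mul_eq_zero.1 (show (a + b + 7 * c) * (a - b) ^ 2 = 0 by linarith)).resolve_left
      (by linarith))
  have z4 : b - c = 0 := eq_zero_of_pow_eq_zero
    ((mul_eq_zero.1 (show (b + c + 7 * a) * (b - c) ^ 2 = 0 by linarith)).resolve_left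
      (by linarith))
  refine ⟨?_, ?_, ?_⟩ <;> linarith

theorem result : ∃ (n d k : ℕ) (A : Fin d → Matrix (Fin n) (Fin n) ℂ)
    (γ : Fin d → Matrix (Fin k) (Fin k) ℂ), 1 ≤ n ∧ 1 ≤ d ∧ IrrClifford γ ∧
    (∀ j, (A j).IsHermitian) ∧ (spec A γ).Finite ∧ n < (spec A γ).ncard := by
  have hfin : (spec A0 pauli).Finite := by
    refine (Set.Finite.pi' (t := fun _ : Fin 3 => ({0, 1 / 3, -(1 / 3)} : Set ℝ))
      fun _ => Set.toFinite _).subset fun x hx => ?_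
    rw [mem_spec] at hx
    have h := sq_cases (sq_nonneg (x 0)) (sq_nonneg (x 1)) (sq_nonneg (x 2)) (by rw [hx]; ring)
    have k : ∀ j, x j ^ 2 = 0 ∨ x j ^ 2 = 1 / 9 := by
      intro j
      rcases h with h | h
      · left; fin_cases j
        exacts [h.1, h.2.1, h.2.2]
      · right; fin_cases j
        exacts [h.1, h.2.1, h.2.2]
    intro j
    rcases k j with k | k
    · exact Or.inl (eq_zero_of_pow_eq_zero k)
    · exact Or.inr (sq_eq_sq_iff_eq_or_eq_neg.1 (k.trans (by norm_num)))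
  refine ⟨3, 3, 2, A0, pauli, by norm_num, by norm_num, pauli_irr, fun j => ?_, hfin, ?_⟩
  · fin_cases j <;> ext a b <;> fin_cases a <;> fin_cases b <;> simp [A0]
  · let g : Fin 4 → Fin 3 → ℝ := ![![0, 0, 0], ![1 / 3, 1 / 3, 1 / 3],
      ![1 / 3, -(1 / 3), -(1 / 3)], ![-(1 / 3), 1 / 3, -(1 / 3)]]
    have hg : Function.Injective g := by
      intro a b hab
      have h0 := congrFun hab 0
      have h1 := congrFun hab 1
      fin_cases a <;> fin_cases b <;> simp [g] at h0 h1 ⊢ <;> linarith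
    have hs : Set.range g ⊆ spec A0 pauli := by
      rintro _ ⟨a, rfl⟩
      rw [mem_spec]
      fin_cases a <;> simp [g] <;> norm_num
    have := Set.ncard_le_ncard hs hfin
    rw [Set.ncard_range_of_injective hg] at this
    simp at this
    omega

end Pool.Agent.Results.MP_fa5fea_an.Counterexample
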